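import Mathlib

set_option autoImplicit false
open Set Topology Filter Function Metric Real

namespace Pool.Agent.H.MP_4194ae_gt

lemma sq {X Y : Type} [TopologicalSpace X] [PseudoMetricSpace Y] [T0Space Y] {f g : X → Y}
    {a : X → ℝ} (ha : Continuous a) (hg : Continuous g) (hf : ∀ x, a x ≠ 0 → ContinuousAt f x)
    (hb : ∀ x, dist (g x) (f x) ≤ |a x|) : Continuous f := continuous_iff_continuousAt.2 fun x => by
  by_cases h : a x = 0
  · have e : g x = f x := (Metric.inseparable_iff.2 (le_antisymm (by simpa [h] using hb x)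
      dist_nonneg)).eq
    rw [ContinuousAt, ← e]
    exact hg.continuousAt.congr_dist (squeeze_zero (fun _ => dist_nonneg) hb
      (by simpa [h] using ha.abs.tendsto x))
  · exact hf x h

noncomputable def E (z : ℝ) : ℂ := Complex.exp (((π / z : ℝ) : ℂ) * Complex.I)

lemma E_norm (z : ℝ) : ‖E z‖ = 1 := Complex.norm_exp_ofReal_mul_I _
lemma E_half (z : ℝ) : ‖E z / 2‖ = 1 / 2 := by simp [E_norm]
lemma E_ne (z : ℝ) : E z ≠ 0 := Complex.exp_ne_zero _
lemma E_cont {z : ℝ} (h : z ≠ 0) : ContinuousAt E z := by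
  unfold E; fun_prop (disch := exact h)
lemma E_one : E 1 = -1 := by simp [E]
lemma E_two : E (1/2) = 1 := by
  rw [E, show π / (1/2) = 2 * π by ring]; push_cast; exact Complex.exp_two_pi_mul_I
lemma E_neg {z : ℝ} (h : z ≠ 0) : E (z * (1 / (1 - z))) = - E z := by
  rw [E, E, show π / (z * (1 / (1 - z))) = π / z - π by field_simp]
  push_cast; rw [sub_mul, Complex.exp_sub, Complex.exp_pi_mul_I]; ring
lemma E_max {η : ℝ} (h : 0 < η) : Continuous fun z => E (max z η) :=
  continuous_iff_continuousAt.2 fun z => (E_cont (lt_max_of_lt_right h).ne').comp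
    (f := fun z => max z η) (by fun_prop)

def M : Set (ℂ × ℝ) := {p | ‖p.1‖ ≤ 1 ∧ 0 ≤ p.2 ∧ p.2 ≤ 1 ∧ p.2 / 4 ≤ ‖p.1 - E p.2 / 2‖}

lemma M_cpt : IsCompact M := by
  have c : Continuous fun p : ℂ × ℝ => min (p.2 / 4) ‖p.1 - E p.2 / 2‖ :=
    sq (g := fun _ => 0) continuous_snd continuous_const (fun p h => by
      have := (E_cont h).comp continuous_snd.continuousAt
      exact (continuous_snd.continuousAt.div_const 4).min
        (continuous_fst.continuousAt.sub (this.div_const 2)).norm) fun p => by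
      rw [dist_zero_left, Real.norm_eq_abs, abs_le]
      have := norm_nonneg (p.1 - E p.2 / 2)
      have := neg_abs_le p.2
      have := le_abs_self p.2
      exact ⟨le_min (by linarith) (by linarith), min_le_of_left_le (by linarith)⟩
  refine ((isCompact_closedBall (0:ℂ) 1).prod (isCompact_Icc (a := (0:ℝ)) (b := 1))).of_isClosed_subset
    ?_ fun p h => ⟨by simpa using h.1, h.2.1, h.2.2.1⟩
  refine (isClosed_le continuous_fst.norm continuous_const).inter
    ((isClosed_le continuous_const continuous_snd).inter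
    ((isClosed_le continuous_snd continuous_const).inter ?_))
  show IsClosed {p : ℂ × ℝ | p.2 / 4 ≤ ‖p.1 - E p.2 / 2‖}
  simp only [← min_eq_left_iff]
  exact isClosed_eq c (continuous_snd.div_const 4)

noncomputable def mu (z : ℝ) : ℝ := 1 / max z (1 - z)
noncomputable def cc (z : ℝ) : ℂ := (mu z - 1 : ℝ) * (E z / 2) + (E (max z (1/2)) - 1) / 2
noncomputable def ret (x : ℂ) : ℂ := (max 1 ‖x‖)⁻¹ • x
noncomputable def g0 (p : ℂ × ℝ) : ℂ × ℝ := (ret (cc p.2 - mu p.2 * p.1), p.2 * mu p.2)
noncomputable def L (p : ℂ × ℝ) : ℂ × ℝ := (p.1, max p.2 (1/8 - ‖p.1‖))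

lemma mx (z : ℝ) : 0 < max z (1 - z) := by rcases le_total z (1/2) with h | h <;> simp <;> grind
lemma mu_cont : Continuous mu := continuous_const.div (by fun_prop) fun z => (mx z).ne'
lemma cc_cont : Continuous cc := by
  refine Continuous.add (sq (g := fun _ => 0) (a := fun z => mu z - 1) (mu_cont.sub continuous_const)
    continuous_const (fun z h => ?_) fun z => ?_)
    (((E_max (by norm_num)).sub continuous_const).div_const _)
  · exact (Complex.continuous_ofReal.comp (mu_cont.sub continuous_const)).continuousAt.mul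
      ((E_cont fun e => h (by simp [e, mu])).div_const 2)
  · rw [dist_zero_left, norm_mul, E_half, Complex.norm_real, Real.norm_eq_abs]
    linarith [abs_nonneg (mu z - 1)]
lemma ret_cont : Continuous ret :=
  ((continuous_const.max continuous_norm).inv₀ fun _ =>
    (lt_max_of_lt_left one_pos).ne').smul continuous_id
lemma g0_cont : Continuous g0 := (ret_cont.comp ((cc_cont.comp continuous_snd).sub
  ((Complex.continuous_ofReal.comp (mu_cont.comp continuous_snd)).mul continuous_fst))).prodMk
  (continuous_snd.mul (mu_cont.comp continuous_snd))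
lemma L_cont : Continuous L := by unfold L; fun_prop

lemma ret_of {x : ℂ} (h : ‖x‖ ≤ 1) : ret x = x := by simp [ret, max_eq_left h]
lemma ret_norm {x : ℂ} (h : 1 ≤ ‖x‖) : ‖ret x‖ = 1 := by
  rw [ret, max_eq_right h, norm_smul, norm_inv, norm_norm, inv_mul_cancel₀ (by linarith)]

lemma cc_eq {z : ℝ} (h : z ≠ 0) : cc z = E (z * mu z) / 2 + mu z * (E z / 2) := by
  rw [cc]; push_cast
  rcases le_total z (1/2) with l | l
  · rw [max_eq_right l, E_two, mu, max_eq_right (by linarith), E_neg h]; ring
  · rw [max_eq_left l, mu, max_eq_left (by linarith), mul_one_div_cancel h, E_one]; ring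

lemma far {x : ℂ} (z : ℝ) : |‖x‖ - 1/2| ≤ ‖x - E z / 2‖ := E_half z ▸ abs_norm_sub_norm_le _ _

lemma g0_maps : MapsTo g0 M M := fun ⟨w, z⟩ ⟨a, b, c, d⟩ => by
  dsimp only at a b c d
  have m0 : 0 < mu z := one_div_pos.2 (mx z)
  have z1 : z * mu z ≤ 1 := by rw [mu, mul_one_div, div_le_one (mx z)]; exact le_max_left _ _
  rcases le_total ‖cc z - mu z * w‖ 1 with l | l
  · refine ⟨by rwa [g0, ret_of l], mul_nonneg b m0.le, z1, ?_⟩
    simp only [g0, ret_of l]
    by_cases e : z = 0
    · simp [e]
    rw [cc_eq e, show E (z * mu z) / 2 + mu z * (E z / 2) - mu z * w - E (z * mu z) / 2 =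
      -(mu z * (w - E z / 2)) by ring, norm_neg, norm_mul, Complex.norm_real, Real.norm_of_nonneg m0.le]
    nlinarith
  · refine ⟨(ret_norm l).le, mul_nonneg b m0.le, z1, le_trans ?_ (far _)⟩
    simp only [g0, ret_norm l]; norm_num; linarith

lemma L_maps : MapsTo L M M := fun ⟨w, z⟩ ⟨a, b, c, d⟩ => by
  dsimp only at a b c d
  have := norm_nonneg w
  refine ⟨a, le_max_of_le_left b, max_le c (by linarith), ?_⟩
  simp only [L]
  rcases le_total z (1/8 - ‖w‖) with l | l
  · rw [max_eq_right l]; refine le_trans ?_ (far _); rw [abs_of_neg (by linarith)]; linarith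
  · rwa [max_eq_left l]

lemma nofix : ∀ p ∈ M, g0 (L p) ≠ p := fun ⟨w, z⟩ hp e => by
  obtain ⟨-, b, c, -⟩ := L_maps hp
  obtain ⟨a, -, -, d⟩ := hp
  simp only [g0, L, Prod.mk.injEq] at a b c d e
  have l1 := le_max_left z (1/8 - ‖w‖)
  have l2 := le_max_right z (1/8 - ‖w‖)
  generalize max z (1/8 - ‖w‖) = l at *
  obtain ⟨e1, e2⟩ := e
  have : l = 0 ∨ l = 1 := by
    by_contra k
    push Not at k
    have k1 := lt_of_le_of_ne b k.1.symm
    have k2 := lt_of_le_of_ne c k.2
    have : 1 < mu l := one_lt_one_div (mx l) (max_lt k2 (by linarith))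
    nlinarith
  rcases this with rfl | rfl
  · rw [show cc 0 = 0 by rw [cc, max_eq_right (by norm_num), E_two]; simp [mu], ret_of
      (by simpa [mu] using a)] at e1
    have : w = 0 := by simp [mu] at e1; linear_combination (-1/2) * e1
    norm_num [this] at l2
  · have m1 : mu 1 = 1 := by simp [mu]
    rw [show cc 1 = -1 by rw [cc, max_eq_left (by norm_num), E_one, m1]; norm_num, m1] at e1
    rw [m1, one_mul] at e2
    subst e2
    rw [E_one] at d
    rcases le_total ‖-1 - ((1:ℝ):ℂ) * w‖ 1 with l | l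
    · rw [ret_of l] at e1
      rw [show w - -1 / 2 = 0 by push_cast at e1; linear_combination (-1/2) * e1] at d
      norm_num at d
    · have n := ret_norm l
      rw [e1] at n
      rw [ret, max_eq_right l, inv_smul_eq_iff₀ (by linarith), Complex.real_smul] at e1
      generalize ‖-1 - ((1:ℝ):ℂ) * w‖ = m at *
      have := congrArg norm (show ((m + 1 : ℝ) : ℂ) * w = -1 by
        push_cast at e1 ⊢; linear_combination (-1) * e1)
      rw [norm_mul, n, Complex.norm_real, Real.norm_of_nonneg (by linarith)] at this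
      simp at this; linarith

end Pool.Agent.H.MP_4194ae_gt
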