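import Pool.Agent.H.MP_4194ae_gt.A

set_option autoImplicit false
open Set Topology Filter Function Metric Real

namespace Pool.Agent.H.MP_4194ae_gt

noncomputable def col (c : ℂ) (δ θ : ℝ) (w : ℂ) : ℂ :=
  c + (min ‖w - c‖ (2 * ‖w - c‖ - δ - θ) / ‖w - c‖) • (w - c)

lemma col_norm {c w : ℂ} {δ θ : ℝ} (a : 0 ≤ θ) (b : θ ≤ δ) (d : δ ≤ ‖w - c‖) :
    ‖col c δ θ w - c‖ = min ‖w - c‖ (2 * ‖w - c‖ - δ - θ) := by
  have : 0 ≤ min ‖w - c‖ (2 * ‖w - c‖ - δ - θ) := le_min (norm_nonneg _) (by linarith)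
  rw [col, add_sub_cancel_left, norm_smul, Real.norm_of_nonneg (by positivity)]
  by_cases e : ‖w - c‖ = 0
  · rw [e] at this ⊢; rw [mul_zero (_ / _)]; exact le_antisymm this (min_le_left _ _)
  · exact div_mul_cancel₀ _ e

lemma col_dist {c w : ℂ} {δ θ : ℝ} (a : 0 ≤ θ) (d : δ ≤ ‖w - c‖) : dist w (col c δ θ w) ≤ θ := by
  by_cases e : ‖w - c‖ = 0
  · rw [col, norm_eq_zero.1 e, sub_eq_zero.1 (norm_eq_zero.1 e)]; simpa
  have p := lt_of_le_of_ne (norm_nonneg _) (Ne.symm e)
  rw [dist_eq_norm, col, ← sub_sub, ← one_smul ℝ (w - c), smul_smul, ← sub_smul, one_smul, norm_smul,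
    mul_one, Real.norm_of_nonneg (sub_nonneg.2 ((div_le_one p).2 (min_le_left _ _))), sub_mul,
    div_mul_cancel₀ _ e, one_mul, sub_le_comm]
  exact le_min (by linarith) (by linarith)

lemma col_le {c w : ℂ} {δ θ : ℝ} (a : 0 ≤ θ) (b : θ ≤ δ) (d : δ ≤ ‖w - c‖) (hc : ‖c‖ ≤ 1)
    (hw : ‖w‖ ≤ 1) : ‖col c δ θ w‖ ≤ 1 := by
  have : 0 ≤ min ‖w - c‖ (2 * ‖w - c‖ - δ - θ) := le_min (norm_nonneg _) (by linarith)
  exact mem_closedBall_zero_iff.1 ((convex_closedBall (0:ℂ) 1).add_smul_sub_mem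
    (mem_closedBall_zero_iff.2 hc) (mem_closedBall_zero_iff.2 hw)
    ⟨by positivity, div_le_one_of_le₀ (min_le_left _ _) (norm_nonneg _)⟩)

lemma col_fib {c v : ℂ} {δ θ : ℝ} (a : 0 ≤ θ) (b : θ ≤ δ) (d : δ ≤ 1/4) (hc : ‖c‖ = 1/2)
    (hv : ‖v‖ ≤ 1) (h : δ - θ ≤ ‖v - c‖) :
    IsConnected {w | ‖w‖ ≤ 1 ∧ δ ≤ ‖w - c‖ ∧ col c δ θ w = v} := by
  by_cases e : v = c
  · subst e
    rw [show {w | ‖w‖ ≤ 1 ∧ δ ≤ ‖w - v‖ ∧ col v δ θ w = v} = sphere v δ from ?_]
    · exact isConnected_sphere (by simp) _ (a.trans b)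
    rw [sub_self, norm_zero] at h
    refine subset_antisymm (fun w hw => mem_sphere_iff_norm.2 ?_) fun w k => ?_
    · obtain ⟨-, k, l⟩ := hw
      have := col_norm a b k
      rw [l, sub_self, norm_zero] at this
      rcases min_choice ‖w - v‖ (2 * ‖w - v‖ - δ - θ) with m | m <;> linarith
    · rw [mem_sphere_iff_norm] at k
      refine ⟨by linarith [norm_le_norm_add_norm_sub' w v], k.ge, ?_⟩
      rw [col, k, min_eq_right (by linarith), show 2 * δ - δ - θ = 0 by linarith]; simp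
  have p := norm_pos_iff.2 (sub_ne_zero.2 e)
  set r := ‖v - c‖ with hr
  let R := max r ((r + δ + θ) / 2)
  have R0 : 0 < R := lt_max_of_lt_left p
  have n : ‖c + (R / r) • (v - c) - c‖ = R := by
    rw [add_sub_cancel_left, norm_smul, Real.norm_of_nonneg (by positivity), div_mul_cancel₀ _ p.ne']
  rw [show {w | ‖w‖ ≤ 1 ∧ δ ≤ ‖w - c‖ ∧ col c δ θ w = v} = {c + (R / r) • (v - c)} from ?_]
  · exact isConnected_singleton
  refine subset_antisymm (fun w hw => ?_) (singleton_subset_iff.2 ⟨?_, ?_, ?_⟩)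
  · obtain ⟨-, k, l⟩ := hw
    have := col_norm a b k
    rw [l, ← hr] at this
    have w0 : 0 < ‖w - c‖ := p.trans_le (this ▸ min_le_left _ _)
    have q : R = ‖w - c‖ := by
      rcases le_total ‖w - c‖ (2 * ‖w - c‖ - δ - θ) with m | m
      · rw [min_eq_left m] at this; rw [← this]; exact max_eq_left (by linarith)
      · rw [min_eq_right m] at this
        exact (max_eq_right (by linarith)).trans (by linarith)
    rw [mem_singleton_iff, ← l, col, add_sub_cancel_left, smul_smul, ← this, q,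
      div_mul_div_cancel₀ p.ne', div_self w0.ne', one_smul, add_sub_cancel]
  · rcases le_total ((r + δ + θ) / 2) r with m | m
    · simpa [R, max_eq_left m, div_self p.ne'] using hv
    · have := norm_le_norm_add_norm_sub' (c + (R / r) • (v - c)) c
      rw [n, show R = _ from max_eq_right m] at this
      rw [show R = _ from max_eq_right m]; linarith
  · rw [n]; exact le_max_of_le_right (by linarith)
  · rw [col, n, add_sub_cancel_left, smul_smul, show min R (2 * R - δ - θ) = r from ?_,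
      div_mul_div_cancel₀ R0.ne', div_self p.ne', one_smul, add_sub_cancel]
    rcases le_total ((r + δ + θ) / 2) r with m | m
    · rw [show R = _ from max_eq_left m]; exact min_eq_left (by linarith)
    · rw [show R = _ from max_eq_right m]; exact (min_eq_right (by linarith)).trans (by ring)

noncomputable def top (η : ℝ) (v : ℂ) : ℝ := min 1 (η + 4 * ‖v - 1 / 2‖)
noncomputable def F1 (η : ℝ) (p : ℂ × ℝ) : ℂ :=
  col (E p.2 / 2) (p.2 / 4) (min p.2 η / 4) p.1 / E (max p.2 η)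
noncomputable def F (η : ℝ) (p : ℂ × ℝ) : ℂ × ℝ := (F1 η p, p.2 / top η (F1 η p))
def B : Set (ℂ × ℝ) := closedBall 0 1 ×ˢ Icc 0 1

lemma top_pos {η : ℝ} (h : 0 < η) (v : ℂ) : 0 < top η v := lt_min one_pos (by positivity)

lemma F_cont {η : ℝ} (h : 0 < η) : Continuous fun p : M => F η p := by
  have c2 : Continuous fun p : M => p.1.2 := by fun_prop
  have c1 : Continuous fun p : M => p.1.1 := by fun_prop
  have c : Continuous fun p : M => F1 η p := by
    refine (sq c2 c1 (fun p k => ?_) fun p => ?_).div ((E_max h).comp c2) fun _ => E_ne _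
    · have e := ((E_cont k).comp (f := fun p : M => p.1.2) c2.continuousAt).div_const 2
      have n := (c1.continuousAt.sub e).norm
      exact e.add (((n.min (((continuousAt_const.mul n).sub (c2.continuousAt.div_const 4)).sub
        ((c2.continuousAt.min continuousAt_const).div_const 4))).div n
        (((div_pos (lt_of_le_of_ne p.2.2.1 (Ne.symm k)) four_pos).trans_le p.2.2.2.2).ne')).smul
        (c1.continuousAt.sub e))
    · have := le_min p.2.2.1 h.le
      refine (col_dist (by positivity) p.2.2.2.2).trans ?_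
      rw [abs_of_nonneg p.2.2.1]; linarith [min_le_left p.1.2 η, p.2.2.1]
  exact c.prodMk (c2.div (by unfold top; fun_prop) fun _ => (top_pos h _).ne')

lemma rot (v : ℂ) (z : ℝ) : ‖v * E z - E z / 2‖ = ‖v - 1 / 2‖ := by
  rw [show v * E z - E z / 2 = (v - 1 / 2) * E z by ring, norm_mul, E_norm, mul_one]

lemma F_mem {η : ℝ} (h : 0 < η) {p : ℂ × ℝ} (hp : p ∈ M) : F η p ∈ B := by
  obtain ⟨a, b, c, d⟩ := hp
  have t0 : 0 ≤ min p.2 η / 4 := by have := le_min b h.le; positivity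
  have t1 : min p.2 η / 4 ≤ p.2 / 4 := by linarith [min_le_left p.2 η]
  refine ⟨mem_closedBall_zero_iff.2 ?_, div_nonneg b (top_pos h _).le,
    (div_le_one (top_pos h _)).2 (le_min c ?_)⟩
  · rw [F, F1, norm_div, E_norm, div_one]
    exact col_le t0 t1 d (by rw [E_half]; norm_num) a
  · rcases le_total p.2 η with l | l
    · linarith [norm_nonneg (F1 η p - 1 / 2)]
    · rw [← rot _ p.2, F1, max_eq_left l, div_mul_cancel₀ _ (E_ne _), col_norm t0 t1 d, min_eq_right l]
      rcases min_choice ‖p.1 - E p.2 / 2‖ (2 * ‖p.1 - E p.2 / 2‖ - p.2 / 4 - η / 4) with m | m <;>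
        linarith

lemma F_fib {η : ℝ} (h : 0 < η) {y : ℂ × ℝ} (hy : y ∈ B) :
    IsConnected ((fun p : M => F η p) ⁻¹' {y}) ∧ diam ((fun p : M => F η p) ⁻¹' {y}) ≤ η / 2 := by
  obtain ⟨v, s⟩ := y
  obtain ⟨a, b, c⟩ := hy
  dsimp only at a b c
  have tp := top_pos h v
  have z2 : s * top η v ≤ top η v := mul_le_of_le_one_left tp.le c
  have e : ∀ p : ℂ × ℝ, F η p = (v, s) ↔ p.2 = s * top η v ∧
      col (E p.2 / 2) (p.2 / 4) (min p.2 η / 4) p.1 = v * E (max p.2 η) := fun p => by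
    rw [F, Prod.mk.injEq, ← div_eq_iff (E_ne _), and_comm]
    exact and_congr_left fun l => by rw [show F1 η p = v from l, div_eq_iff tp.ne']
  have z0 : 0 ≤ s * top η v := by positivity
  generalize s * top η v = z at z0 z2 e
  have z1 : z ≤ 1 := z2.trans (min_le_left _ _)
  have t0 : 0 ≤ min z η / 4 := by have := le_min z0 h.le; positivity
  constructor
  · have k := (col_fib (c := E z / 2) (v := v * E (max z η)) (δ := z / 4) t0
      (by linarith [min_le_left z η]) (by linarith) (E_half z)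
      (by rw [norm_mul, E_norm, mul_one]; exact mem_closedBall_zero_iff.1 a) (by
        rcases le_total z η with l | l
        · rw [min_eq_left l, sub_self]; exact norm_nonneg _
        · rw [min_eq_right l, max_eq_left l, rot]; linarith [z2.trans (min_le_right _ _)])).image
      (fun w => (w, z)) (by fun_prop)
    have q : Subtype.val '' ((fun p : M => F η p) ⁻¹' {(v, s)}) = (fun w => (w, z)) ''
        {w | ‖w‖ ≤ 1 ∧ z / 4 ≤ ‖w - E z / 2‖ ∧
          col (E z / 2) (z / 4) (min z η / 4) w = v * E (max z η)} := by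
      refine subset_antisymm ?_ ?_
      · rintro _ ⟨⟨⟨w, t⟩, m⟩, l, rfl⟩
        obtain ⟨rfl, l⟩ := (e _).1 l
        exact ⟨w, ⟨m.1, m.2.2.2, l⟩, rfl⟩
      · rintro _ ⟨w, ⟨l1, l2, l3⟩, rfl⟩
        exact ⟨⟨(w, z), l1, z0, z1, l2⟩, (e _).2 ⟨rfl, l3⟩, rfl⟩
    rw [← q] at k
    exact ⟨k.1.of_image, IsInducing.subtypeVal.isPreconnected_image.1 k.2⟩
  · refine diam_le_of_forall_dist_le (by positivity) ?_
    rintro ⟨⟨w, t⟩, m⟩ l ⟨⟨w', t'⟩, m'⟩ l'
    obtain ⟨rfl, l⟩ := (e _).1 l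
    obtain ⟨l0, l'⟩ := (e _).1 l'
    dsimp only at l0 l l'
    subst l0
    have a1 := col_dist t0 m.2.2.2
    have a2 := col_dist t0 m'.2.2.2
    dsimp only at a1 a2
    rw [l] at a1
    rw [l'] at a2
    rw [Subtype.dist_eq, Prod.dist_eq, dist_self, max_eq_left dist_nonneg]
    linarith [dist_triangle_right w w' (v * E (max t' η)), min_le_right t' η]

lemma phi : ∃ φ : (ℂ × ℝ) ≃ₜ EuclideanSpace ℝ (Fin 3), φ '' B = closedBall 0 1 := by
  let e : (ℂ × ℝ) ≃L[ℝ] EuclideanSpace ℝ (Fin 3) := ContinuousLinearEquiv.ofFinrankEq (by simp)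
  have c : IsCompact (e '' B) := ((isCompact_closedBall _ _).prod isCompact_Icc).image e.continuous
  obtain ⟨h, -, k, -⟩ := exists_homeomorph_image_interior_closure_frontier_eq_unitBall
    (s := e '' B) (((convex_closedBall _ _).prod (convex_Icc _ _)).linear_image e.toLinearMap)
    (by
      rw [show ⇑e = e.toHomeomorph from rfl, ← Homeomorph.image_interior, B, interior_prod_eq,
        interior_closedBall _ one_ne_zero, interior_Icc]
      exact Nonempty.image _ ⟨(0, 1/2), by simp, by norm_num, by norm_num⟩) c.isBounded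
  exact ⟨e.toHomeomorph.trans h, by rw [← k, c.isClosed.closure_eq, image_image]; rfl⟩

instance : CompactSpace M := isCompact_iff_compactSpace.1 M_cpt

lemma maps (ε : ℝ) (h : 0 < ε) : ∃ f : M → closedBall (0 : EuclideanSpace ℝ (Fin 3)) 1,
    Continuous f ∧ Surjective f ∧ (∀ y, diam (f ⁻¹' {y}) < ε) ∧
      ∀ K, IsClosed K → IsConnected K → IsConnected (f ⁻¹' K) := by
  obtain ⟨φ, hφ⟩ := phi
  let f : M → closedBall (0 : EuclideanSpace ℝ (Fin 3)) 1 := fun p =>
    ⟨φ (F ε p), hφ ▸ mem_image_of_mem _ (F_mem h p.2)⟩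
  have c : Continuous f := (φ.continuous.comp (F_cont h)).subtype_mk _
  have k : ∀ y, IsConnected (f ⁻¹' {y}) ∧ diam (f ⁻¹' {y}) ≤ ε / 2 := fun y => by
    obtain ⟨x, a, b⟩ := hφ.symm.subset y.2
    rw [show f ⁻¹' {y} = (fun p : M => F ε p) ⁻¹' {x} from Set.ext fun p => by
      simp only [f, mem_preimage, mem_singleton_iff, Subtype.ext_iff, ← b, φ.injective.eq_iff]]
    exact F_fib h a
  have s : Surjective f := fun y => (k y).1.1
  exact ⟨f, c, s, fun y => (k y).2.trans_lt (by linarith), fun K a b =>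
    (c.isClosedMap.isQuotientMap c s).isCoinducing.isConnected_preimage_of_isClosed
      (fun y => (k y).1) a b⟩

instance : ConnectedSpace M := by
  obtain ⟨f, -, -, -, k⟩ := maps 1 one_pos
  have : ConnectedSpace (closedBall (0 : EuclideanSpace ℝ (Fin 3)) 1) :=
    isConnected_iff_connectedSpace.1 ((convex_closedBall _ _).isConnected ⟨0, by simp⟩)
  exact connectedSpace_iff_univ.2 (k univ isClosed_univ isConnected_univ)

end Pool.Agent.H.MP_4194ae_gt
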